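import Mathlib

/-!
# The sharp second coefficient in convex classes with boundary curvature bounds

For the class `CV R₁ R₂` of normalised convex univalent functions whose boundary curve has
curvature between `R₁` and `R₂` the sharp bound for the second coefficient is `√(1 - R₁)`.

Upper bound: put `p = 1 + z f'' / f'`, `w = f'' / (f' (p + 1))` and `H = 4 f' / (p + 1)^2`.
Then `w 0 = a₂`, `H 0 = 1`, and on the unit circle
`1 - |w|^2 = 4 Re p / |p + 1|^2 ≥ R₁ |H|`, so the maximum principle for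
`c w^2 + R₁ H` (with `c` unimodular) gives `|a₂|^2 + R₁ ≤ 1`.

Extremal functions: `z / (1 - b z)`, which maps the disc onto a disc of curvature `1 - b^2`.
-/

open Complex Set Metric

namespace Pool.Agent.Results.MP_2970b2_an.SharpSecondCoefficient

/-- The class `CV(R₁, R₂)`: analytic univalent functions on the unit disc with convex image,
`f 0 = 0`, `f' 0 = 1`, such that `f`, `f'`, `f''` extend continuously to the closed disc
(the extensions are `g₀`, `g₁`, `g₂`), `f'` has no zero on the closed disc, and the curvature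
`Re (1 + z f'' / f') / |f'|` of the boundary curve lies in `[R₁, R₂]` at every boundary point. -/
structure CV (R₁ R₂ : ℝ) (f : ℂ → ℂ) : Prop where
  diff : DifferentiableOn ℂ f (ball 0 1)
  inj : InjOn f (ball 0 1)
  convex : Convex ℝ (f '' ball 0 1)
  zero : f 0 = 0
  one : deriv f 0 = 1
  bdry : ∃ g₀ g₁ g₂ : ℂ → ℂ, ContinuousOn g₀ (closedBall 0 1) ∧
    ContinuousOn g₁ (closedBall 0 1) ∧ ContinuousOn g₂ (closedBall 0 1) ∧
    (∀ z ∈ ball (0 : ℂ) 1, g₀ z = f z ∧ g₁ z = deriv f z ∧ g₂ z = deriv (deriv f) z) ∧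
    (∀ z ∈ closedBall (0 : ℂ) 1, g₁ z ≠ 0) ∧
    ∀ z ∈ sphere (0 : ℂ) 1, R₁ ≤ (1 + z * g₂ z / g₁ z).re / ‖g₁ z‖ ∧
      (1 + z * g₂ z / g₁ z).re / ‖g₁ z‖ ≤ R₂

/-- The maximum principle on the unit disc. -/
theorem maxp (G : ℂ → ℂ) (hc : ContinuousOn G (closedBall 0 1))
    (hd : DifferentiableOn ℂ G (ball 0 1)) (C : ℝ) (hC : ∀ z ∈ sphere (0 : ℂ) 1, ‖G z‖ ≤ C)
    (z : ℂ) (hz : z ∈ closedBall (0 : ℂ) 1) : ‖G z‖ ≤ C := by
  have h1 : closure (ball (0 : ℂ) 1) = closedBall 0 1 := closure_ball _ one_ne_zero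
  have h2 : frontier (ball (0 : ℂ) 1) = sphere 0 1 := frontier_ball _ one_ne_zero
  apply Complex.norm_le_of_forall_mem_frontier_norm_le (U := ball (0 : ℂ) 1) isBounded_ball
    ⟨hd, by rw [h1]; exact hc⟩ _ (by rw [h1]; exact hz)
  intro w hw
  rw [h2] at hw
  exact hC w hw

/-- A unimodular factor rotating a complex number to its modulus. -/
theorem rot (a : ℂ) : ∃ c : ℂ, ‖c‖ = 1 ∧ c * a = (‖a‖ : ℂ) := by
  by_cases ha : a = 0
  · exact ⟨1, by simp, by simp [ha]⟩
  · have hn : ‖a‖ ≠ 0 := norm_ne_zero_iff.2 ha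
    refine ⟨(‖a‖ : ℂ) / a, ?_, ?_⟩
    · rw [norm_div, Complex.norm_real, norm_norm, div_self hn]
    · field_simp

/-- Data extracted from membership in the class. -/
theorem data {R₁ R₂ : ℝ} (h0 : 0 ≤ R₁) {f : ℂ → ℂ} (hf : CV R₁ R₂ f) :
    0 < R₂ ∧ ‖deriv (deriv f) 0 / 2‖ ^ 2 + R₁ ≤ 1 := by
  obtain ⟨g₀, g₁, g₂, hg0, hg1, hg2, hE, hne, hR⟩ := hf.bdry
  have hbc : ball (0 : ℂ) 1 ⊆ closedBall 0 1 := ball_subset_closedBall
  have hsc : sphere (0 : ℂ) 1 ⊆ closedBall 0 1 := sphere_subset_closedBall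
  have d1 : DifferentiableOn ℂ (deriv f) (ball 0 1) := hf.diff.deriv isOpen_ball
  have d2 : DifferentiableOn ℂ (deriv (deriv f)) (ball 0 1) := d1.deriv isOpen_ball
  have D1 : DifferentiableOn ℂ g₁ (ball 0 1) := d1.congr fun z hz => (hE z hz).2.1
  have D2 : DifferentiableOn ℂ g₂ (ball 0 1) := d2.congr fun z hz => (hE z hz).2.2
  have h00 : (0 : ℂ) ∈ ball (0 : ℂ) 1 := mem_ball_self one_pos
  have h00c : (0 : ℂ) ∈ closedBall (0 : ℂ) 1 := hbc h00
  have e1 : g₁ 0 = 1 := by rw [(hE 0 h00).2.1, hf.one]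
  have e2 : g₂ 0 = deriv (deriv f) 0 := (hE 0 h00).2.2
  set p : ℂ → ℂ := fun z => 1 + z * g₂ z / g₁ z with hp
  have pc : ContinuousOn p (closedBall 0 1) :=
    continuousOn_const.add ((continuousOn_id.mul hg2).div hg1 hne)
  have pd : DifferentiableOn ℂ p (ball 0 1) :=
    (differentiableOn_const _).add ((differentiableOn_id.mul D2).div D1 fun z hz => hne z (hbc hz))
  have p0 : p 0 = 1 := by simp [hp]
  have hpos : ∀ z ∈ sphere (0 : ℂ) 1, R₁ * ‖g₁ z‖ ≤ (p z).re ∧ (p z).re ≤ R₂ * ‖g₁ z‖ := by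
    intro z hz
    have hn : 0 < ‖g₁ z‖ := norm_pos_iff.2 (hne z (hsc hz))
    obtain ⟨ha, hb⟩ := hR z hz
    exact ⟨(le_div_iff₀ hn).1 ha, (div_le_iff₀ hn).1 hb⟩
  have hre : ∀ z ∈ closedBall (0 : ℂ) 1, 0 ≤ (p z).re := by
    intro z hz
    have := maxp (fun z => Complex.exp (-p z)) (pc.neg.cexp) (pd.neg.cexp) 1 (by
      intro w hw
      rw [Complex.norm_exp, Complex.neg_re]
      have : 0 ≤ (p w).re := le_trans (by positivity) (hpos w hw).1
      exact Real.exp_le_one_iff.2 (by linarith)) z hz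
    simp only [Complex.norm_exp, Complex.neg_re] at this
    have h3 := Real.exp_le_one_iff.1 this
    linarith
  have hp1 : ∀ z ∈ closedBall (0 : ℂ) 1, p z + 1 ≠ 0 := by
    intro z hz h
    have := congrArg Complex.re h
    simp only [Complex.add_re, Complex.one_re, Complex.zero_re] at this
    linarith [hre z hz]
  constructor
  · by_contra hR2
    push Not at hR2
    have := maxp (fun z => Complex.exp (p z)) (pc.cexp) (pd.cexp) 1 (by
      intro w hw
      rw [Complex.norm_exp]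
      have h4 := (hpos w hw).2
      have h5 : R₂ * ‖g₁ w‖ ≤ 0 := mul_nonpos_of_nonpos_of_nonneg hR2 (norm_nonneg _)
      exact Real.exp_le_one_iff.2 (by linarith)) 0 h00c
    simp only [Complex.norm_exp, p0, Complex.one_re] at this
    have h3 := Real.exp_le_one_iff.1 this
    linarith
  · set w : ℂ → ℂ := fun z => g₂ z / (g₁ z * (p z + 1)) with hw
    set H : ℂ → ℂ := fun z => 4 * g₁ z / (p z + 1) ^ 2 with hH
    have hden : ∀ z ∈ closedBall (0 : ℂ) 1, g₁ z * (p z + 1) ≠ 0 := fun z hz =>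
      mul_ne_zero (hne z hz) (hp1 z hz)
    have wc : ContinuousOn w (closedBall 0 1) :=
      hg2.div (hg1.mul (pc.add continuousOn_const)) hden
    have wd : DifferentiableOn ℂ w (ball 0 1) :=
      D2.div (D1.mul (pd.add (differentiableOn_const _))) fun z hz => hden z (hbc hz)
    have Hc : ContinuousOn H (closedBall 0 1) :=
      (continuousOn_const.mul hg1).div ((pc.add continuousOn_const).pow 2)
        fun z hz => pow_ne_zero 2 (hp1 z hz)
    have Hd : DifferentiableOn ℂ H (ball 0 1) :=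
      ((differentiableOn_const _).mul D1).div ((pd.add (differentiableOn_const _)).pow 2)
        fun z hz => pow_ne_zero 2 (hp1 z (hbc hz))
    have w0 : w 0 = deriv (deriv f) 0 / 2 := by
      simp only [hw, p0, e1, e2]; norm_num
    have H0 : H 0 = 1 := by
      simp only [hH, p0, e1]; norm_num
    -- the boundary inequality
    have key : ∀ z ∈ sphere (0 : ℂ) 1, ‖w z‖ ^ 2 + R₁ * ‖H z‖ ≤ 1 := by
      intro z hz
      have hzc := hsc hz
      have hz1 : ‖z‖ = 1 := by simpa using hz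
      have hg : g₁ z ≠ 0 := hne z hzc
      have hq : p z + 1 ≠ 0 := hp1 z hzc
      have hw1 : z * w z = (p z - 1) / (p z + 1) := by
        have : p z - 1 = z * g₂ z / g₁ z := by simp [hp]
        rw [this]
        simp only [hw]
        field_simp
      have hw2 : ‖w z‖ = ‖p z - 1‖ / ‖p z + 1‖ := by
        rw [← norm_div, ← hw1, norm_mul, hz1, one_mul]
      have hH2 : ‖H z‖ = 4 * ‖g₁ z‖ / ‖p z + 1‖ ^ 2 := by
        simp only [hH, norm_div, norm_mul, norm_pow]
        norm_num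
      have hn : 0 < ‖p z + 1‖ := norm_pos_iff.2 hq
      have hn2 : 0 < ‖p z + 1‖ ^ 2 := by positivity
      rw [hw2, hH2, div_pow, mul_div_assoc', ← add_div, div_le_one hn2]
      have n1 : ‖p z - 1‖ ^ 2 = ((p z).re - 1) ^ 2 + (p z).im ^ 2 := by
        rw [Complex.sq_norm, Complex.normSq_apply]; simp; ring
      have n2 : ‖p z + 1‖ ^ 2 = ((p z).re + 1) ^ 2 + (p z).im ^ 2 := by
        rw [Complex.sq_norm, Complex.normSq_apply]; simp; ring
      rw [n1, n2]
      nlinarith [(hpos z hz).1]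
    obtain ⟨c, hc1, hc2⟩ := rot ((w 0) ^ 2)
    have := maxp (fun z => c * w z ^ 2 + (R₁ : ℂ) * H z)
      ((continuousOn_const.mul (wc.pow 2)).add (continuousOn_const.mul Hc))
      (((differentiableOn_const _).mul (wd.pow 2)).add ((differentiableOn_const _).mul Hd)) 1 (by
        intro z hz
        refine le_trans (norm_add_le _ _) ?_
        rw [norm_mul, hc1, one_mul, norm_pow, norm_mul, Complex.norm_real, Real.norm_eq_abs,
          abs_of_nonneg h0]
        exact key z hz) 0 h00c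
    simp only [hc2, H0, mul_one] at this
    rw [norm_pow, w0] at this
    have e : (((‖deriv (deriv f) 0 / 2‖ ^ 2 : ℝ) : ℂ) + (R₁ : ℂ)) =
        ((‖deriv (deriv f) 0 / 2‖ ^ 2 + R₁ : ℝ) : ℂ) := by push_cast; ring
    rw [e, Complex.norm_real, Real.norm_eq_abs, abs_of_nonneg (by positivity)] at this
    exact this

/-- The extremal functions. -/
noncomputable def disc (b : ℝ) (z : ℂ) : ℂ := z / (1 - b * z)

theorem den_ne {b : ℝ} (hb0 : 0 ≤ b) (hb1 : b < 1) {z : ℂ} (hz : z ∈ closedBall (0 : ℂ) 1) :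
    1 - (b : ℂ) * z ≠ 0 := by
  intro h
  have h1 : (b : ℂ) * z = 1 := (sub_eq_zero.1 h).symm
  have h2 := congrArg norm h1
  rw [norm_mul, Complex.norm_real, Real.norm_eq_abs, abs_of_nonneg hb0, norm_one] at h2
  have h3 : ‖z‖ ≤ 1 := by simpa using hz
  nlinarith [norm_nonneg z]

theorem hasDeriv_disc (b : ℝ) {z : ℂ} (hz : 1 - (b : ℂ) * z ≠ 0) :
    HasDerivAt (disc b) (1 / (1 - b * z) ^ 2) z := by
  have h1 : HasDerivAt (fun z : ℂ => 1 - (b : ℂ) * z) (-b) z := by
    simpa using ((hasDerivAt_id z).const_mul (b : ℂ)).const_sub 1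
  have h2 := (hasDerivAt_id z).div h1 hz
  have e : (1 : ℂ) / (1 - b * z) ^ 2 = (1 * (1 - b * z) - id z * (-b)) / (1 - b * z) ^ 2 := by
    congr 1
    simp only [id]
    ring
  rw [e]
  exact h2

theorem hasDeriv_disc2 (b : ℝ) {z : ℂ} (hz : 1 - (b : ℂ) * z ≠ 0) :
    HasDerivAt (fun z : ℂ => 1 / (1 - (b : ℂ) * z) ^ 2) (2 * b / (1 - b * z) ^ 3) z := by
  have h1 : HasDerivAt (fun z : ℂ => 1 - (b : ℂ) * z) (-b) z := by
    simpa using ((hasDerivAt_id z).const_mul (b : ℂ)).const_sub 1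
  have h2 := (hasDerivAt_const z (1 : ℂ)).div (h1.pow 2) (pow_ne_zero 2 hz)
  refine h2.congr_deriv ?_
  have hz2 : (1 - (b : ℂ) * z) ^ 2 ≠ 0 := pow_ne_zero 2 hz
  have hz3 : (1 - (b : ℂ) * z) ^ 3 ≠ 0 := pow_ne_zero 3 hz
  simp only [Pi.pow_apply]
  rw [div_eq_div_iff (pow_ne_zero 2 hz2) hz3]
  push_cast
  ring

theorem disc_mem {b : ℝ} (hb0 : 0 ≤ b) (hb1 : b < 1) {R₁ R₂ : ℝ} (h1 : R₁ ≤ 1 - b ^ 2)
    (h2 : 1 - b ^ 2 ≤ R₂) : CV R₁ R₂ (disc b) ∧ deriv (deriv (disc b)) 0 / 2 = b := by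
  have hbc : ball (0 : ℂ) 1 ⊆ closedBall 0 1 := ball_subset_closedBall
  have hd1 : ∀ z ∈ closedBall (0 : ℂ) 1, deriv (disc b) z = 1 / (1 - b * z) ^ 2 := fun z hz =>
    (hasDeriv_disc b (den_ne hb0 hb1 hz)).deriv
  have hd2 : ∀ z ∈ ball (0 : ℂ) 1, deriv (deriv (disc b)) z = 2 * b / (1 - b * z) ^ 3 := by
    intro z hz
    have : deriv (disc b) =ᶠ[nhds z] fun z : ℂ => 1 / (1 - (b : ℂ) * z) ^ 2 := by
      filter_upwards [isOpen_ball.mem_nhds hz] with w hw
      exact hd1 w (hbc hw)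
    rw [this.deriv_eq]
    exact (hasDeriv_disc2 b (den_ne hb0 hb1 (hbc hz))).deriv
  have h00 : (0 : ℂ) ∈ ball (0 : ℂ) 1 := mem_ball_self one_pos
  have hb2 : 0 < 1 - b ^ 2 := by nlinarith
  refine ⟨⟨?_, ?_, ?_, by simp [disc], by rw [hd1 0 (hbc h00)]; simp,
    ⟨disc b, fun z => 1 / (1 - b * z) ^ 2, fun z => 2 * b / (1 - b * z) ^ 3,
      ?_, ?_, ?_, ?_, ?_, ?_⟩⟩, ?_⟩
  · exact fun z hz => (hasDeriv_disc b (den_ne hb0 hb1 (hbc hz))).differentiableAt.differentiableWithinAt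
  · intro z hz w hw h
    have n1 := den_ne hb0 hb1 (hbc hz)
    have n2 := den_ne hb0 hb1 (hbc hw)
    simp only [disc] at h
    rw [div_eq_div_iff n1 n2] at h
    linear_combination h
  · -- the image is a disc
    have him : disc b '' ball 0 1 = ball ((b / (1 - b ^ 2) : ℝ) : ℂ) (1 / (1 - b ^ 2)) := by
      ext w
      constructor
      · rintro ⟨z, hz, rfl⟩
        have n1 := den_ne hb0 hb1 (hbc hz)
        have hz1 : ‖z‖ < 1 := by simpa using hz
        rw [mem_ball, dist_eq_norm]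
        have e : disc b z - ((b / (1 - b ^ 2) : ℝ) : ℂ) =
            (z - b) / ((1 - b * z)) * ((1 / (1 - b ^ 2) : ℝ) : ℂ) := by
          have : (1 : ℂ) - (b : ℂ) ^ 2 ≠ 0 := by
            have := hb2.ne'
            exact_mod_cast this
          simp only [disc]
          push_cast
          rw [div_mul_div_comm, div_sub_div _ _ n1 this, div_eq_div_iff (mul_ne_zero n1 this)
            (mul_ne_zero n1 this)]
          ring
        rw [e, norm_mul, Complex.norm_real, Real.norm_eq_abs, abs_of_pos (by positivity), norm_div]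
        have hn : 0 < ‖1 - (b : ℂ) * z‖ := norm_pos_iff.2 n1
        have : ‖z - b‖ / ‖1 - (b : ℂ) * z‖ < 1 := by
          rw [div_lt_one hn]
          apply lt_of_pow_lt_pow_left₀ 2 hn.le
          rw [Complex.sq_norm, Complex.sq_norm, Complex.normSq_apply, Complex.normSq_apply]
          have hz2 : z.re ^ 2 + z.im ^ 2 < 1 := by
            have : ‖z‖ ^ 2 < 1 := by nlinarith [norm_nonneg z]
            rw [Complex.sq_norm, Complex.normSq_apply] at this
            nlinarith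
          simp
          nlinarith
        have h3 : (0 : ℝ) < 1 / (1 - b ^ 2) := by positivity
        nlinarith
      · intro hw
        rw [mem_ball, dist_eq_norm] at hw
        have hw2 : (1 - b ^ 2) * (w.re ^ 2 + w.im ^ 2) - 2 * b * w.re < 1 := by
          have h3 : ‖w - ((b / (1 - b ^ 2) : ℝ) : ℂ)‖ ^ 2 < (1 / (1 - b ^ 2)) ^ 2 :=
            pow_lt_pow_left₀ hw (norm_nonneg _) two_ne_zero
          rw [Complex.sq_norm, Complex.normSq_apply] at h3
          simp only [Complex.sub_re, Complex.ofReal_re, Complex.sub_im, Complex.ofReal_im,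
            sub_zero] at h3
          have h4 : (1 - b ^ 2) * ((w.re - b / (1 - b ^ 2)) * (w.re - b / (1 - b ^ 2)) +
            w.im * w.im) < (1 - b ^ 2) * (1 / (1 - b ^ 2)) ^ 2 := by
            exact mul_lt_mul_of_pos_left h3 hb2
          have h5 : (1 - b ^ 2) * ((w.re - b / (1 - b ^ 2)) * (w.re - b / (1 - b ^ 2)) +
            w.im * w.im) = (1 - b ^ 2) * (w.re ^ 2 + w.im ^ 2) - 2 * b * w.re +
              b ^ 2 / (1 - b ^ 2) := by
            field_simp
            ring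
          have h6 : (1 - b ^ 2) * (1 / (1 - b ^ 2)) ^ 2 = 1 + b ^ 2 / (1 - b ^ 2) := by
            field_simp
            ring
          linarith
        have hlt : w.re ^ 2 + w.im ^ 2 < (1 + b * w.re) ^ 2 + (b * w.im) ^ 2 := by nlinarith
        have hne : 1 + (b : ℂ) * w ≠ 0 := by
          intro h
          have ha := congrArg Complex.re h
          have hb := congrArg Complex.im h
          simp at ha hb
          have hwi : (b * w.im) ^ 2 = 0 := by
            rcases hb with hb | hb <;> simp [hb]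
          rw [ha, hwi] at hlt
          nlinarith [sq_nonneg w.re, sq_nonneg w.im]
        refine ⟨w / (1 + b * w), ?_, ?_⟩
        · rw [mem_ball, dist_zero_right, norm_div, div_lt_one (norm_pos_iff.2 hne)]
          apply lt_of_pow_lt_pow_left₀ 2 (norm_nonneg _)
          rw [Complex.sq_norm, Complex.sq_norm, Complex.normSq_apply, Complex.normSq_apply]
          simp
          nlinarith
        · simp only [disc]
          have : 1 - (b : ℂ) * (w / (1 + b * w)) = 1 / (1 + b * w) := by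
            field_simp
            ring
          rw [this, div_div_div_cancel_right₀ hne, div_one]
    rw [him]
    exact convex_ball _ _
  · exact fun z hz => (hasDeriv_disc b (den_ne hb0 hb1 hz)).continuousAt.continuousWithinAt
  · exact fun z hz => (hasDeriv_disc2 b (den_ne hb0 hb1 hz)).continuousAt.continuousWithinAt
  · apply ContinuousOn.div continuousOn_const (by fun_prop)
    exact fun z hz => pow_ne_zero 3 (den_ne hb0 hb1 hz)
  · exact fun z hz => ⟨rfl, (hd1 z (hbc hz)).symm, (hd2 z hz).symm⟩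
  · exact fun z hz => one_div_ne_zero (pow_ne_zero 2 (den_ne hb0 hb1 hz))
  · intro z hz
    have hzc : z ∈ closedBall (0 : ℂ) 1 := sphere_subset_closedBall hz
    have n1 := den_ne hb0 hb1 hzc
    have hz1 : ‖z‖ = 1 := by simpa using hz
    have hz2 : z.re ^ 2 + z.im ^ 2 = 1 := by
      have : ‖z‖ ^ 2 = 1 := by rw [hz1]; norm_num
      rw [Complex.sq_norm, Complex.normSq_apply] at this
      nlinarith
    have e1 : 1 + z * (2 * b / (1 - b * z) ^ 3) / (1 / (1 - b * z) ^ 2) =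
        (1 + b * z) / (1 - b * z) := by
      have e0 : z * (2 * b / (1 - b * z) ^ 3) / (1 / (1 - b * z) ^ 2) =
          (2 * b * z) / (1 - b * z) := by
        rw [div_div_eq_mul_div, div_one, mul_div_assoc', div_mul_eq_mul_div,
          div_eq_div_iff (pow_ne_zero 3 n1) n1]
        ring
      rw [e0, eq_div_iff n1, add_mul, div_mul_cancel₀ _ n1]
      ring
    have hn : 0 < ‖1 - (b : ℂ) * z‖ := norm_pos_iff.2 n1
    have e2 : ((1 + (b : ℂ) * z) / (1 - b * z)).re = (1 - b ^ 2) / ‖1 - (b : ℂ) * z‖ ^ 2 := by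
      rw [Complex.div_re, ← Complex.normSq_eq_norm_sq]
      have hns : Complex.normSq (1 - (b : ℂ) * z) ≠ 0 := by
        rw [Complex.normSq_eq_norm_sq]; positivity
      field_simp
      simp
      nlinarith
    have e3 : ‖(1 : ℂ) / (1 - b * z) ^ 2‖ = 1 / ‖1 - (b : ℂ) * z‖ ^ 2 := by
      rw [norm_div, norm_one, norm_pow]
    have e4 : (1 + z * (2 * b / (1 - b * z) ^ 3) / (1 / (1 - b * z) ^ 2)).re /
        ‖(1 : ℂ) / (1 - b * z) ^ 2‖ = 1 - b ^ 2 := by
      rw [e1, e2, e3]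
      field_simp
    rw [e4]
    exact ⟨h1, h2⟩
  · rw [hd2 0 h00]; simp

/-- **Main theorem.** For `0 ≤ R₁ ≤ R₂` the class `CV R₁ R₂` is nonempty exactly when `R₁ ≤ 1` and
`0 < R₂`; in that case the supremum of `|a₂|` over the class is `√(1 - R₁)`, and it is attained
whenever `0 < R₁`. -/
theorem result (R₁ R₂ : ℝ) (h0 : 0 ≤ R₁) (h12 : R₁ ≤ R₂) :
    ((∃ f, CV R₁ R₂ f) ↔ R₁ ≤ 1 ∧ 0 < R₂) ∧
    ((∃ f, CV R₁ R₂ f) →
      IsLUB {x : ℝ | ∃ f, CV R₁ R₂ f ∧ x = ‖deriv (deriv f) 0 / 2‖} (Real.sqrt (1 - R₁)) ∧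
      (0 < R₁ → ∃ f, CV R₁ R₂ f ∧ ‖deriv (deriv f) 0 / 2‖ = Real.sqrt (1 - R₁))) := by
  have hex : ∀ κ : ℝ, 0 < κ → κ ≤ 1 → R₁ ≤ κ → κ ≤ R₂ →
      ∃ f, CV R₁ R₂ f ∧ ‖deriv (deriv f) 0 / 2‖ = Real.sqrt (1 - κ) := by
    intro κ hκ0 hκ1 hk1 hk2
    have hs : Real.sqrt (1 - κ) ^ 2 = 1 - κ := Real.sq_sqrt (by linarith)
    have hlt : Real.sqrt (1 - κ) < 1 := by
      rw [Real.sqrt_lt' one_pos]; linarith
    obtain ⟨ha, hb⟩ := disc_mem (Real.sqrt_nonneg _) hlt (R₁ := R₁) (R₂ := R₂)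
      (by rw [hs]; linarith) (by rw [hs]; linarith)
    refine ⟨_, ha, ?_⟩
    rw [hb, Complex.norm_real, Real.norm_eq_abs, abs_of_nonneg (Real.sqrt_nonneg _)]
  have hne : (∃ f, CV R₁ R₂ f) ↔ R₁ ≤ 1 ∧ 0 < R₂ := by
    constructor
    · rintro ⟨f, hf⟩
      obtain ⟨ha, hb⟩ := data h0 hf
      exact ⟨by nlinarith [sq_nonneg ‖deriv (deriv f) 0 / 2‖], ha⟩
    · rintro ⟨ha, hb⟩
      rcases le_or_gt R₂ 1 with h | h
      · obtain ⟨f, hf, _⟩ := hex R₂ hb h h12 le_rfl
        exact ⟨f, hf⟩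
      · obtain ⟨f, hf, _⟩ := hex 1 one_pos le_rfl ha h.le
        exact ⟨f, hf⟩
  refine ⟨hne, fun h => ?_⟩
  obtain ⟨hR1, hR2⟩ := hne.1 h
  refine ⟨⟨?_, ?_⟩, fun hp => hex R₁ hp hR1 le_rfl h12⟩
  · rintro x ⟨f, hf, rfl⟩
    apply Real.le_sqrt_of_sq_le
    linarith [(data h0 hf).2]
  · intro B hB
    rcases h0.eq_or_lt with h | h
    · -- `R₁ = 0`: approach the value `1` through discs of small curvature
      have hlim : ∀ κ : ℝ, 0 < κ → κ ≤ min 1 R₂ → Real.sqrt (1 - κ) ≤ B := by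
        intro κ hκ hk
        obtain ⟨f, hf, he⟩ := hex κ hκ (hk.trans (min_le_left _ _)) (by linarith)
          (hk.trans (min_le_right _ _))
        rw [← he]
        exact hB ⟨f, hf, rfl⟩
      have hc : Filter.Tendsto (fun κ : ℝ => Real.sqrt (1 - κ)) (nhdsWithin 0 (Set.Ioi 0))
          (nhds (Real.sqrt (1 - 0))) := by
        apply Filter.Tendsto.mono_left _ nhdsWithin_le_nhds
        exact (Real.continuous_sqrt.comp (continuous_const.sub continuous_id)).tendsto 0
      rw [← h]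
      refine le_of_tendsto hc ?_
      have hm : (0 : ℝ) < min 1 R₂ := lt_min one_pos hR2
      filter_upwards [Ioo_mem_nhdsGT hm] with κ hκ
      exact hlim κ hκ.1 hκ.2.le
    · obtain ⟨f, hf, he⟩ := hex R₁ h hR1 le_rfl h12
      exact hB ⟨f, hf, he.symm⟩

end Pool.Agent.Results.MP_2970b2_an.SharpSecondCoefficient
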